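import Pool.Agent.TH818.SA.Sub
import Pool.Agent.Q163.LE.Meas

set_option autoImplicit false

/-!
# Simultaneous approximation of the elements of a finite-dimensional space over a simultaneously
Liouville field
-/

namespace Pool.Agent.U664.LZ

open Pool.Agent.Q163.LE Pool.Agent.TH818.SA

/-- finitely many elements of an `F`-vector space of dimension `≤ D` are simultaneously
approximable -/
theorem sim_subF {F : Subfield ℝ} (hF : SimLiouville F) (V : Submodule F ℝ)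
    [FiniteDimensional F V] (D : ℕ) (hD : Module.finrank F V ≤ D)
    (J : Finset ℕ) (x : ℕ → ℝ) (hx : ∀ i ∈ J, x i ∈ V) (q0 : ℕ) :
    ∃ q : ℕ, q0 ≤ q ∧ ∀ i ∈ J, ∃ p : ℤ,
      |(q : ℝ) * x i - p| < (q : ℝ) ^ (-(1 / ((D : ℝ) + 1))) := by
  classical
  let b := Module.finBasis F V
  -- the coefficients
  have h1 : ∀ i, ∃ c : Fin (Module.finrank F V) → F,
      i ∈ J → x i = ∑ a, (c a : ℝ) * ((b a : V) : ℝ) := by
    intro i
    by_cases hi : i ∈ J
    · refine ⟨fun a => b.repr ⟨x i, hx i hi⟩ a, fun _ => ?_⟩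
      have h2 := b.sum_repr ⟨x i, hx i hi⟩
      have h3 := congrArg (Submodule.subtype V) h2
      rw [map_sum] at h3
      simp only [Submodule.subtype_apply, map_smul] at h3
      exact h3.symm
    · exact ⟨0, fun h => absurd h hi⟩
  choose c hc using h1
  obtain ⟨B, hB⟩ : ∃ B : ℝ, B = ∑ a, |((b a : V) : ℝ)| := ⟨_, rfl⟩
  have hB0 : 0 ≤ B := by
    rw [hB]
    exact Finset.sum_nonneg fun _ _ => abs_nonneg _
  obtain ⟨N, hN⟩ : ∃ N : ℝ, N = ∑ i ∈ J, ∑ a, |(c i a : ℝ)| := ⟨_, rfl⟩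
  have hN0 : 0 ≤ N := by
    rw [hN]
    exact Finset.sum_nonneg fun _ _ => Finset.sum_nonneg fun _ _ => abs_nonneg _
  have hNi : ∀ i ∈ J, ∑ a, |(c i a : ℝ)| ≤ N := by
    intro i hi
    rw [hN]
    exact Finset.single_le_sum (f := fun i => ∑ a, |(c i a : ℝ)|)
      (fun i _ => Finset.sum_nonneg fun _ _ => abs_nonneg _) hi
  obtain ⟨M, hM1, hM2, hM3⟩ := hF (J.biUnion fun i => Finset.univ.image fun a => (c i a : ℝ)) (by
    intro y hy
    obtain ⟨i, _, hy⟩ := Finset.mem_biUnion.1 hy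
    obtain ⟨a, _, rfl⟩ := Finset.mem_image.1 hy
    exact (c i a).2) ((3 * D + 4) * D + 3 * D + 3) (max q0 ⌈B + N + D + 3⌉₊)
  have hMq0 : q0 ≤ M := (le_max_left _ _).trans hM1
  have hMB : B + N + D + 3 ≤ M :=
    (Nat.le_ceil _).trans (by exact_mod_cast (le_max_right _ _).trans hM1)
  have hD0 : (0 : ℝ) ≤ D := Nat.cast_nonneg _
  have hM0 : (0 : ℝ) < M := by linarith
  have hM1' : (1 : ℝ) ≤ M := by linarith
  have hk : ∀ i a, ∃ k : ℤ, i ∈ J → |(M : ℝ) * c i a - k| <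
      1 / (M : ℝ) ^ ((3 * D + 4) * D + 3 * D + 3) := by
    intro i a
    by_cases hi : i ∈ J
    · obtain ⟨k, hk⟩ := hM3 (c i a) (Finset.mem_biUnion.2 ⟨i, hi, Finset.mem_image_of_mem _
        (Finset.mem_univ a)⟩)
      exact ⟨k, fun _ => hk⟩
    · exact ⟨0, fun h => absurd h hi⟩
  choose k hk using hk
  have hQ1 : 1 ≤ M ^ (3 * D + 4) := Nat.one_le_pow _ _ (by omega)
  obtain ⟨q, hq1, hq2, hq3⟩ := dirichlet_sim (Module.finrank F V)
    (fun a => ((b a : V) : ℝ)) (M ^ (3 * D + 4)) hQ1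
  choose p hp using hq3
  have hqD : (q : ℝ) ≤ (M : ℝ) ^ ((3 * D + 4) * D) := by
    have g1 : q ≤ M ^ ((3 * D + 4) * D) := by
      refine hq2.trans ?_
      rw [← pow_mul]
      exact Nat.pow_le_pow_right (by omega) (Nat.mul_le_mul_left _ hD)
    exact_mod_cast g1
  refine ⟨M * q, ?_, fun i hi => ?_⟩
  · calc q0 ≤ M * 1 := by omega
      _ ≤ M * q := Nat.mul_le_mul_left M hq1
  refine ⟨∑ a, k i a * p a, ?_⟩
  have e1 : ((M * q : ℕ) : ℝ) * x i - ((∑ a, k i a * p a : ℤ) : ℝ) =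
      ∑ a, (k i a : ℝ) * ((q : ℝ) * ((b a : V) : ℝ) - p a) +
        ∑ a, ((M : ℝ) * (c i a : ℝ) - k i a) * ((q : ℝ) * ((b a : V) : ℝ)) := by
    rw [hc i hi]
    push_cast
    rw [Finset.mul_sum, ← Finset.sum_sub_distrib, ← Finset.sum_add_distrib]
    refine Finset.sum_congr rfl fun a _ => ?_
    ring
  have hw1 : 1 / (M : ℝ) ^ ((3 * D + 4) * D + 3 * D + 3) ≤ 1 := by
    rw [div_le_one (by positivity)]
    exact one_le_pow₀ hM1'
  have hcard : ((Finset.univ : Finset (Fin (Module.finrank F V))).card : ℝ) ≤ D := by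
    rw [Finset.card_univ, Fintype.card_fin]
    exact_mod_cast hD
  have hksum : ∑ a, |(k i a : ℝ)| ≤ (M : ℝ) ^ 2 := by
    have h5 : ∀ a, |(k i a : ℝ)| ≤ M * |(c i a : ℝ)| + 1 := by
      intro a
      have h6 := hk i a hi
      have h7 := abs_sub ((M : ℝ) * c i a) ((M : ℝ) * c i a - k i a)
      rw [sub_sub_cancel, abs_mul, Nat.abs_cast] at h7
      linarith
    calc ∑ a, |(k i a : ℝ)| ≤ ∑ a, (M * |(c i a : ℝ)| + 1) := Finset.sum_le_sum fun a _ => h5 a
      _ = M * (∑ a, |(c i a : ℝ)|) + (Finset.univ : Finset (Fin (Module.finrank F V))).card := by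
          rw [Finset.sum_add_distrib, ← Finset.mul_sum]
          simp
      _ ≤ M * N + D := add_le_add (mul_le_mul_of_nonneg_left (hNi i hi) hM0.le) hcard
      _ ≤ M * (N + D) := by nlinarith
      _ ≤ M * M := mul_le_mul_of_nonneg_left (by linarith) hM0.le
      _ = (M : ℝ) ^ 2 := (sq _).symm
  have p1 : |∑ a, (k i a : ℝ) * ((q : ℝ) * ((b a : V) : ℝ) - p a)| ≤
      1 / (M : ℝ) ^ (3 * D + 2) := by
    calc |∑ a, (k i a : ℝ) * ((q : ℝ) * ((b a : V) : ℝ) - p a)|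
        ≤ ∑ a, |(k i a : ℝ)| * (1 / ((M ^ (3 * D + 4) : ℕ) : ℝ)) := by
          refine (Finset.abs_sum_le_sum_abs _ _).trans (Finset.sum_le_sum fun a _ => ?_)
          rw [abs_mul]
          exact mul_le_mul_of_nonneg_left (hp a).le (abs_nonneg _)
      _ = (∑ a, |(k i a : ℝ)|) * (1 / ((M ^ (3 * D + 4) : ℕ) : ℝ)) := by rw [Finset.sum_mul]
      _ ≤ (M : ℝ) ^ 2 * (1 / ((M ^ (3 * D + 4) : ℕ) : ℝ)) :=
          mul_le_mul_of_nonneg_right hksum (by positivity)
      _ = 1 / (M : ℝ) ^ (3 * D + 2) := by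
          push_cast
          rw [show 3 * D + 4 = 2 + (3 * D + 2) by ring, pow_add]
          field_simp
  have p2 : |∑ a, ((M : ℝ) * (c i a : ℝ) - k i a) * ((q : ℝ) * ((b a : V) : ℝ))| ≤
      1 / (M : ℝ) ^ (3 * D + 2) := by
    calc |∑ a, ((M : ℝ) * (c i a : ℝ) - k i a) * ((q : ℝ) * ((b a : V) : ℝ))|
        ≤ ∑ a, (1 / (M : ℝ) ^ ((3 * D + 4) * D + 3 * D + 3)) *
            ((M : ℝ) ^ ((3 * D + 4) * D) * |((b a : V) : ℝ)|) := by
          refine (Finset.abs_sum_le_sum_abs _ _).trans (Finset.sum_le_sum fun a _ => ?_)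
          rw [abs_mul, abs_mul, Nat.abs_cast]
          exact mul_le_mul (hk i a hi).le (mul_le_mul_of_nonneg_right hqD (abs_nonneg _))
            (by positivity) (by positivity)
      _ = (1 / (M : ℝ) ^ ((3 * D + 4) * D + 3 * D + 3)) * ((M : ℝ) ^ ((3 * D + 4) * D) * B) := by
          rw [hB, Finset.mul_sum, Finset.mul_sum]
      _ ≤ (1 / (M : ℝ) ^ ((3 * D + 4) * D + 3 * D + 3)) * ((M : ℝ) ^ ((3 * D + 4) * D) * M) := by
          refine mul_le_mul_of_nonneg_left (mul_le_mul_of_nonneg_left (by linarith)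
            (by positivity)) (by positivity)
      _ = 1 / (M : ℝ) ^ (3 * D + 2) := by
          rw [show (3 * D + 4) * D + 3 * D + 3 = (3 * D + 4) * D + 1 + (3 * D + 2) by ring,
            pow_add, pow_add, pow_one]
          field_simp
  have e2 : |((M * q : ℕ) : ℝ) * x i - ((∑ a, k i a * p a : ℤ) : ℝ)| <
      1 / (M : ℝ) ^ (3 * D + 1) := by
    rw [e1]
    calc _ ≤ 1 / (M : ℝ) ^ (3 * D + 2) + 1 / (M : ℝ) ^ (3 * D + 2) :=
          (abs_add_le _ _).trans (add_le_add p1 p2)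
      _ = 2 / (M : ℝ) ^ (3 * D + 2) := by ring
      _ < 1 / (M : ℝ) ^ (3 * D + 1) := by
          rw [div_lt_div_iff₀ (by positivity) (by positivity), one_mul, pow_succ (M : ℝ) (3 * D + 1),
            mul_comm]
          exact mul_lt_mul_of_pos_left (by linarith) (by positivity)
  refine lt_of_lt_of_le e2 ?_
  have hMqpos : (0 : ℝ) < ((M * q : ℕ) : ℝ) := by
    have : 0 < M * q := Nat.mul_pos (by omega) (by omega)
    exact_mod_cast this
  have f1 : ((M * q : ℕ) : ℝ) ≤ ((M : ℝ) ^ (3 * D + 1)) ^ (D + 1) := by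
    push_cast
    calc (M : ℝ) * q ≤ M * (M : ℝ) ^ ((3 * D + 4) * D) := mul_le_mul_of_nonneg_left hqD hM0.le
      _ = ((M : ℝ) ^ (3 * D + 1)) ^ (D + 1) := by
          rw [← pow_succ', ← pow_mul]
          congr 1
          ring
  have f2 : 1 / (M : ℝ) ^ (3 * D + 1) =
      (((M : ℝ) ^ (3 * D + 1)) ^ (D + 1)) ^ (-(1 / ((D : ℝ) + 1))) := by
    rw [Real.rpow_neg (by positivity), ← Real.rpow_natCast ((M : ℝ) ^ (3 * D + 1)) (D + 1),
      ← Real.rpow_mul (by positivity)]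
    push_cast
    rw [mul_one_div_cancel (by positivity), Real.rpow_one, one_div]
  rw [f2]
  exact Real.rpow_le_rpow_of_nonpos hMqpos f1 (by
    have : (0 : ℝ) < 1 / ((D : ℝ) + 1) := by positivity
    linarith)

end Pool.Agent.U664.LZ
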