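import Pool.Agent.N743.SS.Multi
import Pool.Agent.Q163.LE.Meas

set_option autoImplicit false

/-!
# Measures of algebraic independence and simultaneously Liouville fields
-/

namespace Pool.Agent.U664.LZ

open Pool.Agent.Q163.LE Pool.Agent.N743.SS

/-- numbers with a measure of algebraic independence of polynomial type are algebraically
independent over every simultaneously Liouville field -/
theorem algInd_of_measM {F : Subfield ℝ} (hF : SimLiouville F) {ι : Type} (x : ι → ℝ)
    (hx : MeasM x) : AlgebraicIndependent F x := by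
  classical
  rw [algebraicIndependent_iff]
  intro P hP
  by_contra hP0
  obtain ⟨κ, c, hκ, hc, h⟩ := hx P.totalDegree
  obtain ⟨m, ⟨e⟩⟩ : ∃ m, Nonempty (Fin m ≃ P.support) :=
    ⟨P.support.card, ⟨P.support.equivFin.symm⟩⟩
  have hlin : LinearIndependent F
      (fun i : Fin m => MvPolynomial.aeval x (MvPolynomial.monomial (e i : ι →₀ ℕ) (1 : ℤ))) := by
    refine lin_indep hF _ ⌈κ⌉₊ c hc fun z H hz hH hzH => ?_
    obtain ⟨Q, hQ⟩ : ∃ Q : MvPolynomial ι ℤ,
      Q = ∑ i, MvPolynomial.monomial (e i : ι →₀ ℕ) (z i) := ⟨_, rfl⟩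
    have hcoef : ∀ i, Q.coeff (e i : ι →₀ ℕ) = z i := by
      intro i
      rw [hQ, MvPolynomial.coeff_sum, Finset.sum_eq_single i]
      · rw [MvPolynomial.coeff_monomial, if_pos rfl]
      · intro j _ hj
        rw [MvPolynomial.coeff_monomial, if_neg]
        intro h0
        exact hj (e.injective (Subtype.ext h0))
      · intro h0
        exact absurd (Finset.mem_univ _) h0
    have hcoef' : ∀ s : ι →₀ ℕ, Q.coeff s ≠ 0 → ∃ i, s = (e i : ι →₀ ℕ) := by
      intro s hs
      by_contra hcon
      push Not at hcon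
      apply hs
      rw [hQ, MvPolynomial.coeff_sum]
      refine Finset.sum_eq_zero fun i _ => ?_
      rw [MvPolynomial.coeff_monomial, if_neg]
      exact fun h0 => hcon i h0.symm
    have hQ0 : Q ≠ 0 := by
      intro h0
      apply hz
      funext i
      have h1 := hcoef i
      rw [h0] at h1
      rw [← h1]
      exact MvPolynomial.coeff_zero _
    have hdeg : Q.totalDegree ≤ P.totalDegree := by
      rw [MvPolynomial.totalDegree]
      refine Finset.sup_le fun s hs => ?_
      obtain ⟨i, rfl⟩ := hcoef' s (MvPolynomial.mem_support_iff.1 hs)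
      exact MvPolynomial.le_totalDegree (e i).2
    have hmain := h Q hQ0 hdeg H (fun s => by
      by_cases hs : Q.coeff s = 0
      · rw [hs, Int.cast_zero, abs_zero]
        linarith
      · obtain ⟨i, rfl⟩ := hcoef' s hs
        rw [hcoef]
        exact hzH i)
    have e1 : MvPolynomial.aeval x Q = ∑ i, (z i : ℝ) *
        MvPolynomial.aeval x (MvPolynomial.monomial (e i : ι →₀ ℕ) (1 : ℤ)) := by
      rw [hQ, map_sum]
      refine Finset.sum_congr rfl fun i _ => ?_
      rw [MvPolynomial.aeval_monomial, MvPolynomial.aeval_monomial]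
      simp
    rw [← e1]
    refine le_trans ?_ hmain
    have hH0 : (0 : ℝ) < H := by linarith
    rw [Real.rpow_neg hH0.le, div_eq_mul_inv]
    refine mul_le_mul_of_nonneg_left ?_ hc.le
    rw [← Real.rpow_natCast]
    exact inv_anti₀ (by positivity) (Real.rpow_le_rpow_of_exponent_le hH (Nat.le_ceil κ))
  rw [Fintype.linearIndependent_iff] at hlin
  have hz := hlin (fun i => P.coeff (e i : ι →₀ ℕ)) (by
    have hP' : ∑ s ∈ P.support, MvPolynomial.aeval x (MvPolynomial.monomial s (P.coeff s)) = 0 := by
      rw [← map_sum, ← MvPolynomial.as_sum P]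
      exact hP
    rw [← hP', ← Finset.sum_coe_sort P.support, ← Equiv.sum_comp e]
    refine Finset.sum_congr rfl fun i _ => ?_
    rw [MvPolynomial.aeval_monomial, MvPolynomial.aeval_monomial, map_one, one_mul]
    rfl)
  obtain ⟨s, hs⟩ := MvPolynomial.ne_zero_iff.1 hP0
  obtain ⟨i, hi⟩ := e.surjective ⟨s, MvPolynomial.mem_support_iff.2 hs⟩
  apply hs
  have := hz i
  rw [hi] at this
  exact this

end Pool.Agent.U664.LZ
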