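import Pool.Agent.N743.SS.Gomp
import Pool.Agent.U664.LZ.MeasM

set_option autoImplicit false

/-!
# `e` and the values of the entire functions `E_l` over simultaneously Liouville fields
-/

namespace Pool.Agent.U664.LZ

open Pool.Agent.Q163.LE Pool.Agent.N743.SS Pool.Agent.R352.E

/-- the pairs `(l, x)`, `l ≥ 1`, `x > 0` rational -/
abbrev Pr : Type := {p : ℕ × ℚ // 1 ≤ p.1 ∧ 0 < p.2}

/-- algebraic over a ring if a nonzero integral power is -/
theorem alg_of_exp {R : Type} [CommRing R] [Algebra R ℝ] {a b : ℝ} (k : ℕ) (hk : 1 ≤ k)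
    (h : (b⁻¹) ^ k = a) (ha : IsAlgebraic R a) : IsAlgebraic R b := by
  have h1 : IsAlgebraic R (b⁻¹) := by
    rw [← h] at ha
    exact ha.of_pow (by omega)
  have h2 := h1.inv
  rwa [inv_inv] at h2

theorem algInd_congr {F : Subfield ℝ} {ι : Type} {x y : ι → ℝ} (h : AlgebraicIndependent F x)
    (e : ∀ i, x i = y i) : AlgebraicIndependent F y := by
  have e1 : x = y := funext e
  rwa [← e1]

/-- `e` and all numbers `E_l(x)` are algebraically independent -/
theorem algInd_EE {F : Subfield ℝ} (hF : SimLiouville F) :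
    AlgebraicIndependent F (fun o : Option Pr => o.elim (Real.exp 1)
      (fun p => EE p.1.1 (p.1.2 : ℝ))) := by
  classical
  refine algebraicIndependent_of_finite_type fun t ht => ?_
  obtain ⟨T, hT⟩ : ∃ T : Finset Pr, ∀ p : Pr, some p ∈ t → p ∈ T := by
    have : {p : Pr | some p ∈ t}.Finite := ht.preimage (Option.some_injective _).injOn
    exact ⟨this.toFinset, fun p hp => this.mem_toFinset.2 hp⟩
  -- common denominator
  obtain ⟨q, hq⟩ : ∃ q : ℕ, q = ∏ p ∈ T, p.1.2.den := ⟨_, rfl⟩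
  have hq1 : 1 ≤ q := by
    rw [hq]
    exact Finset.prod_pos (f := fun p : Pr => p.1.2.den) fun p _ => p.1.2.den_pos
  have hqd : ∀ p ∈ T, ∃ m : ℕ, 1 ≤ m ∧ ((p.1.2 : ℚ) : ℝ) = (m : ℝ) / q := by
    intro p hp
    obtain ⟨r, hr⟩ : p.1.2.den ∣ q := by
      rw [hq]
      exact Finset.dvd_prod_of_mem _ hp
    obtain ⟨h1, h2, h3⟩ := rat_eq p.1.2 p.2.2
    have hr1 : 1 ≤ r := by
      rcases Nat.eq_zero_or_pos r with h0 | h0
      · rw [h0, mul_zero] at hr
        omega
      · exact h0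
    refine ⟨p.1.2.num.toNat * r, Nat.mul_pos h2 hr1, ?_⟩
    rw [hr]
    push_cast
    rw [mul_div_mul_right _ _ (by positivity), h1]
  obtain ⟨J, hJ⟩ : ∃ J : ℕ, ∀ p ∈ T, p.1.1 ≤ J :=
    ⟨T.sup fun p => p.1.1, fun p hp => Finset.le_sup (f := fun p : Pr => p.1.1) hp⟩
  have hqd' : ∀ p : Pr, ∃ m : ℕ, p ∈ T → 1 ≤ m ∧ ((p.1.2 : ℚ) : ℝ) = (m : ℝ) / q := by
    intro p
    by_cases hp : p ∈ T
    · obtain ⟨m, hm⟩ := hqd p hp
      exact ⟨m, fun _ => hm⟩
    · exact ⟨0, fun h => absurd h hp⟩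
  choose m hm using hqd'
  obtain ⟨U, hU⟩ : ∃ U : Finset ℕ, U = T.image m := ⟨_, rfl⟩
  let mm : Fin U.card → ℕ := fun i => (U.equivFin.symm i : ℕ)
  have hinj : Function.Injective mm := fun i j h => U.equivFin.symm.injective (Subtype.ext h)
  have hmem : ∀ i, mm i ∈ U := fun i => (U.equivFin.symm i).2
  have hpos : ∀ i, 1 ≤ mm i := by
    intro i
    have h1 := hmem i
    rw [hU] at h1
    obtain ⟨p, hp, h2⟩ := Finset.mem_image.1 h1
    rw [← h2]
    exact (hm p hp).1
  have hind := algInd_of_measM hF _ (measM_EE J U.card mm hinj hpos hq1)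
  -- the subfamily
  have hmU : ∀ p : {p : Pr // p ∈ T}, m p.1 ∈ U := by
    intro p
    rw [hU]
    exact Finset.mem_image_of_mem _ p.2
  let g : {p : Pr // p ∈ T} → Fin J × Fin U.card := fun p =>
    (⟨p.1.1.1 - 1, by
      have h1 := p.1.2.1
      have h2 := hJ p.1 p.2
      omega⟩, U.equivFin ⟨m p.1, hmU p⟩)
  have hg1 : ∀ p, ((g p).1 : ℕ) + 1 = p.1.1.1 := by
    intro p
    have h1 := p.1.2.1
    show p.1.1.1 - 1 + 1 = p.1.1.1
    omega
  have hg2 : ∀ p, mm (g p).2 = m p.1 := by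
    intro p
    show ((U.equivFin.symm (U.equivFin ⟨m p.1, hmU p⟩)) : ℕ) = m p.1
    rw [Equiv.symm_apply_apply]
  have hg : Function.Injective g := by
    intro p p' h
    have h1 := hg1 p
    have h2 := hg2 p
    rw [h, hg1] at h1
    rw [h, hg2] at h2
    apply Subtype.ext
    apply Subtype.ext
    apply Prod.ext
    · exact h1.symm
    · have e1 := (hm p.1 p.2).2
      have e2 := (hm p'.1 p'.2).2
      rw [← h2, ← e2] at e1
      exact_mod_cast e1
  have h1 := hind.comp (Option.map g) (Option.map_injective hg)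
  have h2 : AlgebraicIndependent F (fun o : Option {p : Pr // p ∈ T} =>
      o.elim (Real.exp (-1 / q)) (fun p => EE p.1.1.1 (p.1.1.2 : ℝ))) := by
    refine algInd_congr h1 fun o => ?_
    rcases o with _ | p
    · rfl
    · show EE ((g p).1 + 1) ((mm (g p).2 : ℝ) / q) = EE p.1.1.1 (p.1.1.2 : ℝ)
      rw [hg1, hg2, ← (hm p.1 p.2).2]
  rw [AlgebraicIndependent.option_iff] at h2
  have h3 : AlgebraicIndependent F (fun o : Option {p : Pr // p ∈ T} =>
      o.elim (Real.exp 1) (fun p => EE p.1.1.1 (p.1.1.2 : ℝ))) := by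
    rw [AlgebraicIndependent.option_iff]
    refine ⟨h2.1, fun h => h2.2 (alg_of_exp q hq1 ?_ h)⟩
    rw [← Real.exp_neg, ← Real.exp_nat_mul]
    congr 1
    have : (q : ℝ) ≠ 0 := by positivity
    field_simp
  -- the family indexed by `t`
  have hone : ∀ i : t, ∃ o : Option {p : Pr // p ∈ T}, Option.map Subtype.val o = i.1 := by
    rintro ⟨i, hi⟩
    rcases i with _ | p
    · exact ⟨none, rfl⟩
    · exact ⟨some ⟨p, hT p hi⟩, rfl⟩
  choose o ho using hone
  have hoinj : Function.Injective o := by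
    intro i j h
    apply Subtype.ext
    rw [← ho i, ← ho j, h]
  have h4 := h3.comp o hoinj
  refine algInd_congr h4 fun i => ?_
  rw [← ho i]
  show (o i).elim _ _ = _
  rcases o i with _ | p <;> rfl

end Pool.Agent.U664.LZ
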